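import Mathlib

/-!
Maximal sum-free sets of elementary abelian 2-groups.
-/

set_option autoImplicit false

namespace Pool.Agent.J6H4.SF

/-- `A` is sum-free: no `a₁ + a₂ = a₃` with `a₁, a₂, a₃ ∈ A`. -/
def SumFree {G : Type} [AddCommGroup G] (A : Set G) : Prop :=
  ∀ a ∈ A, ∀ b ∈ A, a + b ∉ A

/-- `A` is a maximal sum-free set. -/
def MaxSumFree {G : Type} [AddCommGroup G] (A : Set G) : Prop :=
  SumFree A ∧ ∀ g : G, g ∉ A → ¬ SumFree (insert g A)

/-- the cardinalities of the maximal sum-free sets of `(ℤ/2)^r` -/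
def Sizes (r : ℕ) : Set ℕ :=
  {n | ∃ A : Set (Fin r → ZMod 2), MaxSumFree A ∧ A.ncard = n}

/-- `m` is the `i`-th largest cardinality of a maximal sum-free set of `(ℤ/2)^r` -/
def IsM (r i m : ℕ) : Prop :=
  m ∈ Sizes r ∧ {n | n ∈ Sizes r ∧ m < n}.ncard + 1 = i

/-- `m` is the least cardinality of a maximal sum-free set of `(ℤ/2)^r` -/
def IsMin (r m : ℕ) : Prop := IsLeast (Sizes r) m

/-- the conjecture of Clark and Pedersen -/
def Conjecture : Prop :=
  ∀ r : ℕ, 4 ≤ r →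
    (∀ i : ℕ, 2 ≤ i → i ≤ r - 2 → IsM r i (2 ^ (r - 2) + 2 ^ (r - 2 - i))) ∧
    IsMin r (2 ^ ((r + 1) / 2) + 2 ^ (r / 2) - 3)

/-- the vector with the binary digits of `n` -/
def vec (r n : ℕ) : Fin r → ZMod 2 := fun i => if n.testBit i then 1 else 0

lemma vec_xor (r m n : ℕ) : vec r (m ^^^ n) = vec r m + vec r n := by
  funext i
  simp only [vec, Pi.add_apply, Nat.testBit_xor]
  cases m.testBit i <;> cases n.testBit i <;> decide

lemma vec_inj {r m n : ℕ} (hm : m < 2 ^ r) (hn : n < 2 ^ r) (h : vec r m = vec r n) : m = n := by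
  apply Nat.eq_of_testBit_eq
  intro i
  by_cases hi : i < r
  · have := congrFun h ⟨i, hi⟩
    simp only [vec] at this
    cases h1 : m.testBit i <;> cases h2 : n.testBit i <;> simp_all
  · have hi' : 2 ^ r ≤ 2 ^ i := Nat.pow_le_pow_right (by norm_num) (not_lt.1 hi)
    rw [Nat.testBit_lt_two_pow (hm.trans_le hi'), Nat.testBit_lt_two_pow (hn.trans_le hi')]

lemma vec_surj (r : ℕ) (v : Fin r → ZMod 2) : ∃ n < 2 ^ r, vec r n = v := by
  have hinj : Function.Injective (fun n : Fin (2 ^ r) => vec r n) := fun m n h =>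
    Fin.ext (vec_inj m.2 n.2 h)
  have hcard : Fintype.card (Fin (2 ^ r)) = Fintype.card (Fin r → ZMod 2) := by
    simp [ZMod.card]
  obtain ⟨n, hn⟩ := ((Fintype.bijective_iff_injective_and_card _).2 ⟨hinj, hcard⟩).2 v
  exact ⟨n, n.2, hn⟩

/-- From a list of numbers below `2 ^ r` to a maximal sum-free set. -/
theorem mem_sizes (r : ℕ) (L : List ℕ) (mask : ℕ)
    (hmask : ∀ n < 2 ^ r, (mask.testBit n = true ↔ n ∈ L)) (hlt : ∀ n ∈ L, n < 2 ^ r)
    (hnd : L.Nodup) (h1 : ∀ a ∈ L, ∀ b ∈ L, mask.testBit (a ^^^ b) = false)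
    (h2 : ∀ n < 2 ^ r, mask.testBit n = true ∨ n = 0 ∨ ∃ a ∈ L, mask.testBit (a ^^^ n) = true) :
    L.length ∈ Sizes r := by
  have hx : ∀ a b, a < 2 ^ r → b < 2 ^ r → a ^^^ b < 2 ^ r := fun a b ha hb => Nat.xor_lt_two_pow ha hb
  have hmem : ∀ n < 2 ^ r, (vec r n ∈ vec r '' {n | n ∈ L} ↔ n ∈ L) := by
    intro n hn
    constructor
    · rintro ⟨m, hm, hmn⟩
      rw [← vec_inj (hlt m hm) hn hmn]
      exact hm
    · intro h
      exact ⟨n, h, rfl⟩
  refine ⟨vec r '' {n | n ∈ L}, ⟨?_, ?_⟩, ?_⟩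
  · rintro _ ⟨a, ha, rfl⟩ _ ⟨b, hb, rfl⟩ h
    rw [← vec_xor, hmem _ (hx a b (hlt a ha) (hlt b hb)), ← hmask _ (hx a b (hlt a ha) (hlt b hb)),
      h1 a ha b hb] at h
    exact Bool.noConfusion h
  · intro g hg hs
    obtain ⟨n, hn, rfl⟩ := vec_surj r g
    rcases h2 n hn with h | rfl | ⟨a, ha, h⟩
    · exact hg ((hmem n hn).2 ((hmask n hn).1 h))
    · refine hs (vec r 0) (Set.mem_insert _ _) (vec r 0) (Set.mem_insert _ _) ?_
      rw [← vec_xor]
      exact Set.mem_insert _ _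
    · refine hs (vec r n) (Set.mem_insert _ _) (vec r a)
        (Set.mem_insert_of_mem _ ((hmem a (hlt a ha)).2 ha)) ?_
      rw [← vec_xor, Nat.xor_comm]
      exact Set.mem_insert_of_mem _ ((hmem _ (hx a n (hlt a ha) hn)).2
        ((hmask _ (hx a n (hlt a ha) hn)).1 h))
  · have e1 : {n | n ∈ L} = (L.toFinset : Set ℕ) := by
      ext n
      simp
    rw [Set.InjOn.ncard_image, e1, Set.ncard_coe_finset, List.toFinset_card_of_nodup hnd]
    intro m hm n hn h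
    exact vec_inj (hlt m hm) (hlt n hn) h

end Pool.Agent.J6H4.SF
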